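import Mathlib
import Pool.Agent.H792R2.SS.MEAN
import Pool.Agent.H792R2.SS.MEANa

set_option autoImplicit false

open Set Filter Topology Metric MeasureTheory
open scoped ENNReal Matrix ComplexOrder

namespace Pool.Agent.Q176.MA

/-! ### One real variable -/

/-- At a local maximum the second derivative is nonpositive. -/
lemma second_nonpos {φ φ' : ℝ → ℝ} {c : ℝ} (h1 : ∀ᶠ s in 𝓝 (0 : ℝ), HasDerivAt φ (φ' s) s)
    (h2 : HasDerivAt φ' c 0) (h3 : IsLocalMax φ 0) : c ≤ 0 := by
  by_contra hc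
  push Not at hc
  have e1 : deriv φ =ᶠ[𝓝 0] φ' := h1.mono fun s hs => hs.deriv
  have e2 : deriv (deriv φ) 0 = c := by rw [e1.deriv_eq, h2.deriv]
  have e0 : deriv φ 0 = 0 := h3.deriv_eq_zero
  have hmin := isLocalMin_of_deriv_deriv_pos (f := φ) (x₀ := 0) (by rw [e2]; exact hc) e0
    (h1.self_of_nhds.continuousAt)
  have hconst : φ =ᶠ[𝓝 0] fun _ => φ 0 := by
    filter_upwards [h3, hmin] with s hs1 hs2
    exact le_antisymm hs1 hs2
  have hd : deriv φ =ᶠ[𝓝 0] fun _ => 0 := by
    have := hconst.deriv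
    refine this.trans ?_
    simp
  have : deriv (deriv φ) 0 = 0 := by
    rw [hd.deriv_eq]
    simp
  rw [e2] at this
  linarith

section complex

variable {E : Type*} [NormedAddCommGroup E] [NormedSpace ℂ E]

lemma line_deriv {f : E → ℝ} {z : E} (hf : ContDiffAt ℝ 2 f z) (v : E) :
    (∀ᶠ s in 𝓝 (0 : ℝ), HasDerivAt (fun s : ℝ => f (z + s • v)) (fderiv ℝ f (z + s • v) v) s) ∧
    HasDerivAt (fun s : ℝ => fderiv ℝ f (z + s • v) v) (fderiv ℝ (fderiv ℝ f) z v v) 0 := by
  have hline : ∀ s : ℝ, HasDerivAt (fun s : ℝ => z + s • v) v s := by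
    intro s
    have := ((hasDerivAt_id s).smul_const v).const_add z
    simpa using this
  constructor
  · have h1 : ∀ᶠ w in 𝓝 z, DifferentiableAt ℝ f w := by
      have := hf.eventually (by simp)
      exact this.mono fun w hw => hw.differentiableAt (by norm_num)
    have h2 : Tendsto (fun s : ℝ => z + s • v) (𝓝 0) (𝓝 z) := by
      have := (hline 0).continuousAt.tendsto
      simpa using this
    filter_upwards [h2.eventually h1] with s hs
    exact hs.hasFDerivAt.comp_hasDerivAt s (hline s)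
  · have h1 : DifferentiableAt ℝ (fderiv ℝ f) z :=
      (hf.fderiv_right (m := 1) (by norm_num)).differentiableAt (by norm_num)
    have h2 : HasFDerivAt (fderiv ℝ f) (fderiv ℝ (fderiv ℝ f) z) (z + (0 : ℝ) • v) := by
      simpa using h1.hasFDerivAt
    have h3 := h2.comp_hasDerivAt (0 : ℝ) (hline 0)
    have h4 : HasDerivAt (fun s : ℝ => fderiv ℝ f (z + s • v)) (fderiv ℝ (fderiv ℝ f) z v) 0 := h3
    have h5 := h4.clm_apply (hasDerivAt_const (0 : ℝ) v)
    simpa using h5

/-- Four times the Levi form. -/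
noncomputable def lev (f : E → ℝ) (z v : E) : ℝ :=
  fderiv ℝ (fderiv ℝ f) z v v + fderiv ℝ (fderiv ℝ f) z (Complex.I • v) (Complex.I • v)

/-- The sub-mean value property. -/
lemma sub_mean {f : E → ℝ} {U : Set E} (hU : IsOpen U) (hf : ContDiffOn ℝ 2 f U)
    (hlev : ∀ w ∈ U, ∀ v, 0 ≤ lev f w v) {z ξ : E} (hz : ∀ l : ℂ, ‖l‖ < 2 → z + l • ξ ∈ U) :
    f z ≤ Real.circleAverage (fun l : ℂ => f (z + l • ξ)) 0 1 := by
  let L : ℂ →L[ℝ] E := ((2 : ℝ) • (ContinuousLinearMap.toSpanSingleton ℂ ξ).restrictScalars ℝ)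
  have hL : ∀ l : ℂ, L l = (2 * l) • ξ := by
    intro l
    simp only [L, ContinuousLinearMap.smul_apply, ContinuousLinearMap.coe_restrictScalars',
      ContinuousLinearMap.toSpanSingleton_apply]
    rw [← Complex.coe_smul, smul_smul]
    norm_num
  let h : ℂ → ℝ := fun l => f (z + L l)
  have hmem : ∀ l ∈ ball (0 : ℂ) 1, z + L l ∈ U := by
    intro l hl
    rw [hL]
    apply hz
    rw [mem_ball_zero_iff] at hl
    rw [norm_mul]
    simp
    linarith
  have hcd : ContDiffOn ℝ 2 h (ball 0 1) := by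
    apply hf.comp (g := f) (f := fun l => z + L l)
    · exact (contDiff_const.add L.contDiff).contDiffOn
    · exact hmem
  have hmean := Pool.Agent.H792R2.SS.t_MEAN Pool.Agent.H792R2.SS.t_MEANa h (1 / 2) hcd
    (by norm_num) (by norm_num)
  have hlap : ∀ l ∈ ball (0 : ℂ) 1, 0 ≤ Pool.Agent.H792R2.SS.Lap h l := by
    intro l hl
    have hA : ∀ l, HasFDerivAt (fun l => z + L l) L l := fun l => L.hasFDerivAt.const_add z
    have h1 : fderiv ℝ h =ᶠ[𝓝 l] fun l => (fderiv ℝ f (z + L l)).comp L := by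
      filter_upwards [isOpen_ball.mem_nhds hl] with m hm
      have := ((hf.contDiffAt (hU.mem_nhds (hmem m hm))).differentiableAt
        (by norm_num)).hasFDerivAt.comp m (hA m)
      exact this.fderiv
    have h2 : HasFDerivAt (fderiv ℝ f) (fderiv ℝ (fderiv ℝ f) (z + L l)) (z + L l) :=
      (((hf.contDiffAt (hU.mem_nhds (hmem l hl))).fderiv_right (m := 1)
        (by norm_num)).differentiableAt (by norm_num)).hasFDerivAt
    have h3 := (h2.comp l (hA l)).clm_comp (hasFDerivAt_const L l)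
    have h4 : ∀ v : ℂ, fderiv ℝ (fderiv ℝ h) l v v =
        fderiv ℝ (fderiv ℝ f) (z + L l) (L v) (L v) := by
      intro v
      rw [h1.fderiv_eq]
      have h5 : fderiv ℝ (fun l => (fderiv ℝ f (z + L l)).comp L) l = _ := h3.fderiv
      rw [h5]
      simp
    unfold Pool.Agent.H792R2.SS.Lap
    rw [InnerProductSpace.laplacian_eq_iteratedFDeriv_complexPlane]
    simp only [iteratedFDeriv_two_apply, Matrix.cons_val_zero, Matrix.cons_val_one]
    rw [h4, h4]
    have h6 := hlev (z + L l) (hmem l hl) (L 1)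
    have h7 : L Complex.I = Complex.I • L 1 := by
      rw [hL, hL, smul_smul]
      ring_nf
    rw [h7]
    exact h6
  have hint : 0 ≤ ∫ w in ball (0 : ℂ) (1 / 2), Real.log (1 / 2 / ‖w‖) *
      Pool.Agent.H792R2.SS.Lap h w := by
    apply setIntegral_nonneg measurableSet_ball
    intro w hw
    rw [mem_ball_zero_iff] at hw
    apply mul_nonneg
    · by_cases h0 : w = 0
      · simp [h0]
      · apply Real.log_nonneg
        rw [le_div_iff₀ (norm_pos_iff.mpr h0)]
        linarith
    · apply hlap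
      rw [mem_ball_zero_iff]
      linarith
  have e1 : Real.circleAverage h 0 (1 / 2) =
      Real.circleAverage (fun l : ℂ => f (z + l • ξ)) 0 1 := by
    unfold Real.circleAverage
    congr 1
    apply intervalIntegral.integral_congr
    intro θ _
    simp only [h]
    rw [hL]
    congr 3
    simp only [circleMap]
    push_cast
    ring
  have e0 : h 0 = f z := by simp [h]
  rw [e1, e0] at hmean
  rw [hmean]
  have : 0 ≤ (2 * Real.pi)⁻¹ := by positivity
  nlinarith [mul_nonneg this hint]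

end complex

/-! ### Matrices -/

section matrices

variable {n : Type*} [Fintype n] [DecidableEq n]

lemma det_add_herm {P : Matrix n n ℂ} (hP : P.IsHermitian) :
    (1 + P).det = ((∏ i, (1 + hP.eigenvalues i) : ℝ) : ℂ) := by
  have h1 : P.charpoly.eval (-1) = (Matrix.scalar n (-1 : ℂ) - P).det := by
    rw [Matrix.eval_charpoly]
  rw [hP.charpoly_eq, Polynomial.eval_prod] at h1
  have h2 : (Matrix.scalar n) (-1 : ℂ) - P = -((1 : Matrix n n ℂ) + P) := by
    rw [map_neg, map_one, neg_add]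
    rfl
  rw [h2, Matrix.det_neg] at h1
  have h3 : ∀ i, Polynomial.eval (-1 : ℂ) (Polynomial.X - Polynomial.C ((hP.eigenvalues i : ℝ) : ℂ))
      = (-1) * (((1 + hP.eigenvalues i : ℝ)) : ℂ) := by
    intro i
    simp
    ring
  have h4 : (∏ i, Polynomial.eval (-1 : ℂ) (Polynomial.X - Polynomial.C ((hP.eigenvalues i : ℝ) : ℂ)))
      = (-1) ^ Fintype.card n * ((∏ i, (1 + hP.eigenvalues i) : ℝ) : ℂ) := by
    rw [Finset.prod_congr rfl fun i _ => h3 i, Finset.prod_mul_distrib, Finset.prod_const,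
      Finset.card_univ]
    push_cast
    rfl
  have h5 : ((-1 : ℂ)) ^ Fintype.card n * ((∏ i, (1 + hP.eigenvalues i) : ℝ) : ℂ)
      = (-1) ^ Fintype.card n * ((1 : Matrix n n ℂ) + P).det := by
    rw [← h4]
    exact h1
  have h6 : ((-1 : ℂ)) ^ Fintype.card n ≠ 0 := pow_ne_zero _ (by norm_num)
  exact (mul_left_cancel₀ h6 h5).symm

lemma one_le_det_one_add {P : Matrix n n ℂ} (hP : P.PosSemidef) :
    ∃ r : ℝ, 1 ≤ r ∧ (1 + P).det = (r : ℂ) := by
  refine ⟨∏ i, (1 + hP.isHermitian.eigenvalues i), ?_, det_add_herm hP.isHermitian⟩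
  have : ∀ i ∈ (Finset.univ : Finset n), 1 ≤ 1 + hP.isHermitian.eigenvalues i := fun i _ => by
    have := hP.eigenvalues_nonneg i
    linarith
  calc (1 : ℝ) = ∏ _i : n, (1 : ℝ) := by simp
    _ ≤ ∏ i, (1 + hP.isHermitian.eigenvalues i) :=
        Finset.prod_le_prod (fun _ _ => zero_le_one) this

/-- The determinant is monotone. -/
lemma det_mono {A B : Matrix n n ℂ} (hA : A.PosDef) (hB : (B - A).PosSemidef) :
    0 < A.det.re ∧ A.det.re ≤ B.det.re := by
  obtain ⟨C, hC⟩ : ∃ C : Matrix n n ℂ, B - A = Cᴴ * C := by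
    open scoped MatrixOrder in
    exact CStarAlgebra.nonneg_iff_eq_star_mul_self.mp hB.nonneg
  have hu : IsUnit A.det := (Matrix.isUnit_iff_isUnit_det _).1 hA.isUnit
  have h1 : B = A * (1 + (A⁻¹ * Cᴴ) * C) := by
    rw [mul_add, mul_one, Matrix.mul_assoc, ← Matrix.mul_assoc A A⁻¹, Matrix.mul_nonsing_inv A hu,
      Matrix.one_mul, ← hC]
    abel
  have h2 : (C * A⁻¹ * Cᴴ).PosSemidef := hA.inv.posSemidef.mul_mul_conjTranspose_same C
  obtain ⟨r, hr, h3⟩ := one_le_det_one_add h2
  have h4 : B.det = A.det * (r : ℂ) := by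
    rw [h1, Matrix.det_mul, Matrix.det_one_add_mul_comm, ← Matrix.mul_assoc, h3]
  have h5 := hA.det_pos
  rw [Complex.lt_def] at h5
  have h6 : 0 < A.det.re := by simpa using h5.1
  refine ⟨h6, ?_⟩
  rw [h4, Complex.mul_re, Complex.ofReal_re, Complex.ofReal_im, mul_zero, sub_zero]
  nlinarith

end matrices

end Pool.Agent.Q176.MA
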